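import Pool.Agent.H24.L5.Stmts
import Pool.Agent.H53.Dense.Restr

/-!
# L5, row RSK: from the counting form to the form for tubes
-/

set_option autoImplicit false

open MeasureTheory ENNReal
open scoped RealInnerProductSpace

namespace Pool.L5

open Pool.Agent.H53.Kak Pool.Agent.H32.Dense Pool.Agent.H53.Dns

theorem rsk : RSKStmt := by
  intro d g P hg hP1 hP h ε hgε
  have ha : (1 : ℝ) ≤ 1 := le_refl 1
  have hd0 : (0 : ℝ) ≤ d := Nat.cast_nonneg d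
  have hCv := Cv_pos d
  have hCw := one_le_Cw d
  have hCw0 : 0 < Cw d := by linarith only [hCw]
  have hG := one_le_CG d
  obtain ⟨ε₁, hε₁⟩ : ∃ ε₁, ε₁ = (g + ε) / 2 := ⟨_, rfl⟩
  have hε : 0 < ε := by linarith only [hg, hgε]
  have hε₁g : g < ε₁ := by linarith only [hε₁, hgε]
  have hε₁0 : 0 < ε₁ := by linarith only [hε₁g, hg]
  have hε₁ε : ε₁ < ε := by linarith only [hε₁, hgε]
  obtain ⟨ρ, hρ⟩ : ∃ ρ, ρ = ε - ε₁ := ⟨_, rfl⟩
  have hρ0 : 0 < ρ := by linarith only [hρ, hε₁ε]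
  obtain ⟨c₀, hc, hcount'⟩ := h ε₁ hε₁g
  have hcount : ∀ (m N : ℕ) (u : Fin N → Fin d → ℝ) (v : Fin N → Fin d → ℤ)
      (A : Fin N → Finset ℤ) (κ : ℝ), 0 < κ → Function.Injective v →
      (∀ i k, |v i k| ≤ 2 ^ m) → (∀ i, A i ⊆ Finset.Ico 0 (2 ^ m : ℤ)) →
      (∀ i, κ * 2 ^ m ≤ (A i).card) →
      c₀ * ((2 : ℝ) ^ m) ^ (-ε₁) * (2 ^ m * κ ^ P * (N : ℝ) ^ (1 / (1 : ℝ))) ≤
        ∑ j ∈ Finset.Ico 0 (2 ^ m : ℤ),
          (((Finset.univ.filter fun i => j ∈ A i).image fun i =>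
            rd (pos (2 ^ m) (u i) (v i) j)).card : ℝ) := by
    intro m N u v A κ h1 h2 h3 h4 h5
    have h6 := hcount' m N u v A κ h1 h2 h3 h4 h5
    rw [div_one, Real.rpow_one]
    exact h6
  obtain ⟨η, hη⟩ : ∃ η, η = ρ / (P + 1) := ⟨_, rfl⟩
  have hη0 : 0 < η := by rw [hη]; positivity
  obtain ⟨m₀, hm₀⟩ : ∃ m₀ : ℕ, 10 * Cv d < 2 ^ m₀ := pow_unbounded_of_one_lt _ (by norm_num)
  obtain ⟨A₁, hA₁⟩ : ∃ A₁ : ℝ, A₁ = m₀ + 1 + 2 / η := ⟨_, rfl⟩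
  have hA₁0 : 0 < A₁ := by rw [hA₁]; positivity
  obtain ⟨C₃, hC₃⟩ : ∃ C₃ : ℝ, C₃ = CG d * 3 ^ d := ⟨_, rfl⟩
  have hC₃1 : 1 ≤ C₃ := by
    rw [hC₃]
    have : (1 : ℝ) ≤ 3 ^ d := one_le_pow₀ (by norm_num)
    nlinarith only [hG, this]
  obtain ⟨c₁, hc₁⟩ : ∃ c₁ : ℝ, c₁ = c₀ * (Cv d / 4) * (16 * Cv d) ^ (-P) * (Cw d)⁻¹ *
    (2 * ((d : ℝ) + 1))⁻¹ * (A₁ ^ (P + 1))⁻¹ / 11 ^ d := ⟨_, rfl⟩
  have hc₁0 : 0 < c₁ := by rw [hc₁]; positivity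
  refine ⟨min c₁ C₃⁻¹, lt_min hc₁0 (by positivity), ?_⟩
  intro δ hδ hδ1 ι S c e hF X hX lam hlam hlam1 hvol
  rcases S.eq_empty_or_nonempty with rfl | hSne
  · rw [Finset.card_empty, Nat.cast_zero, mul_zero, mul_zero, ENNReal.ofReal_zero]
    exact bot_le
  rcases le_or_gt lam δ with hcase | hcase
  · -- very small density
    obtain ⟨i, hi⟩ := hSne
    refine le_trans (ENNReal.ofReal_le_ofReal ?_) ((hvol i hi).trans
      (measure_mono Set.inter_subset_left))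
    have h1 := card_le_all hδ hδ1 hF
    rw [← hC₃] at h1
    have h3 : lam ^ P ≤ lam * δ ^ (P - 1) := by
      calc lam ^ P = lam ^ (1 + (P - 1)) := by congr 1; ring
        _ = lam * lam ^ (P - 1) := by rw [Real.rpow_add hlam, Real.rpow_one]
        _ ≤ _ := by
          apply mul_le_mul_of_nonneg_left _ hlam.le
          exact Real.rpow_le_rpow hlam.le hcase (by linarith only [hP1])
    have h4 : δ ^ ε * δ ^ (P - 1) ≤ δ ^ d := by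
      rw [← Real.rpow_add hδ, ← Real.rpow_natCast δ d]
      exact Real.rpow_le_rpow_of_exponent_ge hδ hδ1.le (by linarith only [hP, hgε])
    have h5 : 0 < δ ^ d := by positivity
    calc min c₁ C₃⁻¹ * δ ^ ε * (lam ^ P * δ ^ d * (S.card : ℝ))
        ≤ C₃⁻¹ * δ ^ ε * ((lam * δ ^ (P - 1)) * δ ^ d * (C₃ * (δ ^ d)⁻¹)) := by
          gcongr
          exact min_le_right _ _
      _ = lam * (δ ^ ε * δ ^ (P - 1)) := by field_simp
      _ ≤ lam * δ ^ d := mul_le_mul_of_nonneg_left h4 hlam.le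
  · obtain ⟨S₁, hS1, hS2⟩ := num_levels hδ hδ1 hη0 m₀
    rw [← hA₁] at hS2
    have hδinv : 1 < δ⁻¹ := (one_lt_inv₀ hδ).mpr hδ1
    have hS₁ : 0 < S₁ := by
      rcases Nat.eq_zero_or_pos S₁ with h0 | h0
      · rw [h0, pow_zero] at hS1
        have : (1 : ℝ) ≤ 2 ^ m₀ := one_le_pow₀ (by norm_num)
        nlinarith only [hS1, this, hCv, hδinv, hm₀]
      · exact h0
    have hS : 5 * (Cv d * (1 / 2) ^ S₁) ≤ lam / 2 := by
      have h1 : 10 * Cv d * δ⁻¹ ≤ 2 ^ S₁ := by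
        refine le_trans ?_ hS1.le
        gcongr
      have h2 : 10 * Cv d ≤ δ * 2 ^ S₁ := by
        calc 10 * Cv d = δ * (10 * Cv d * δ⁻¹) := by field_simp
          _ ≤ _ := by gcongr
      rw [one_div, inv_pow]
      have h3 : 5 * (Cv d * ((2 : ℝ) ^ S₁)⁻¹) ≤ δ / 2 := by
        rw [← div_eq_mul_inv, ← mul_div_assoc, div_le_iff₀ (by positivity)]
        linarith only [h2]
      linarith only [hcase, h3]
    have hmain := restr_main ha hP1 hε₁0 hc hcount hδ hδ1 S hSne c e hF hX hlam hvol hS₁ hS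
    rw [div_one, Real.rpow_one] at hmain
    have hS₁r : (0 : ℝ) < S₁ := by exact_mod_cast hS₁
    have h11 : (0 : ℝ) < 11 ^ d := by positivity
    have h1 : c₁ * δ ^ ε ≤ (c₀ * (Cv d / 4) * (16 * Cv d) ^ (-P) * (Cw d)⁻¹ *
        (2 * ((d : ℝ) + 1))⁻¹ * ((S₁ : ℝ) ^ (P + 1))⁻¹ * δ ^ ε₁) / 11 ^ d := by
      have h2 : (S₁ : ℝ) ^ (P + 1) ≤ A₁ ^ (P + 1) * δ ^ (-ρ) := by
        calc (S₁ : ℝ) ^ (P + 1) ≤ (A₁ * δ ^ (-η)) ^ (P + 1) := by gcongr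
          _ = A₁ ^ (P + 1) * δ ^ (-ρ) := by
              rw [Real.mul_rpow hA₁0.le (by positivity), ← Real.rpow_mul hδ.le, hη]
              congr 2
              field_simp
      have h3 : (A₁ ^ (P + 1))⁻¹ * δ ^ ε ≤ ((S₁ : ℝ) ^ (P + 1))⁻¹ * δ ^ ε₁ := by
        have h4 : δ ^ ε = δ ^ ρ * δ ^ ε₁ := by
          rw [← Real.rpow_add hδ]; congr 1; rw [hρ]; ring
        have h5 : (A₁ ^ (P + 1) * δ ^ (-ρ))⁻¹ ≤ ((S₁ : ℝ) ^ (P + 1))⁻¹ :=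
          inv_anti₀ (by positivity) h2
        rw [Real.rpow_neg hδ.le, mul_inv, inv_inv] at h5
        rw [h4, ← mul_assoc]
        gcongr
      calc c₁ * δ ^ ε = (c₀ * (Cv d / 4) * (16 * Cv d) ^ (-P) * (Cw d)⁻¹ *
            (2 * ((d : ℝ) + 1))⁻¹ * ((A₁ ^ (P + 1))⁻¹ * δ ^ ε)) / 11 ^ d := by rw [hc₁]; ring
        _ ≤ (c₀ * (Cv d / 4) * (16 * Cv d) ^ (-P) * (Cw d)⁻¹ *
            (2 * ((d : ℝ) + 1))⁻¹ * (((S₁ : ℝ) ^ (P + 1))⁻¹ * δ ^ ε₁)) / 11 ^ d := by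
            gcongr
        _ = _ := by ring
    have h6 : ENNReal.ofReal (min c₁ C₃⁻¹ * δ ^ ε * (lam ^ P * δ ^ d * (S.card : ℝ))) *
        ((11 ^ d : ℕ) : ℝ≥0∞) ≤ ((11 ^ d : ℕ) : ℝ≥0∞) * volume X := by
      refine le_trans ?_ hmain
      have h7 : ((11 ^ d : ℕ) : ℝ≥0∞) = ENNReal.ofReal (11 ^ d) := by
        rw [← ENNReal.ofReal_natCast]; push_cast; rfl
      rw [h7, ← ENNReal.ofReal_mul (by positivity)]
      apply ENNReal.ofReal_le_ofReal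
      calc min c₁ C₃⁻¹ * δ ^ ε * (lam ^ P * δ ^ d * (S.card : ℝ)) * 11 ^ d
          ≤ (c₁ * δ ^ ε) * (lam ^ P * δ ^ d * (S.card : ℝ)) * 11 ^ d := by
            gcongr
            exact min_le_left _ _
        _ ≤ ((c₀ * (Cv d / 4) * (16 * Cv d) ^ (-P) * (Cw d)⁻¹ *
            (2 * ((d : ℝ) + 1))⁻¹ * ((S₁ : ℝ) ^ (P + 1))⁻¹ * δ ^ ε₁) / 11 ^ d) *
            (lam ^ P * δ ^ d * (S.card : ℝ)) * 11 ^ d := by gcongr
        _ = _ := by field_simp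
    rw [mul_comm] at h6
    have h8 : ((11 ^ d : ℕ) : ℝ≥0∞) ≠ 0 := by
      have : (11 ^ d : ℕ) ≠ 0 := by positivity
      exact_mod_cast this
    exact (ENNReal.mul_le_mul_iff_right h8 (ENNReal.natCast_ne_top _)).mp h6

end Pool.L5
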